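import Pool.Agent.Helper32.MLF.STLa
import Pool.Agent.Helper13.MLF.Defs

/-!
# Project MLF (MP_e66f84_ag), block STL: points of `y ^ l = b f(x)` over finite fields
-/

set_option autoImplicit false
set_option maxHeartbeats 1000000

namespace Pool.Agent.MLF

open Polynomial

noncomputable section

variable {F : Type} [Field F]

/-! ## Polynomials which are not `l`-th powers -/

theorem pow_cancel32 {R : Type} [CommRing R] [IsDomain R] {π x y : R} (hπ : π ≠ 0) (hx : ¬ π ∣ x)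
    (hy : ¬ π ∣ y) {a b : ℕ} (h : π ^ a * x = π ^ b * y) : a = b := by
  rcases lt_trichotomy a b with hlt | heq | hgt
  · exfalso
    obtain ⟨c, rfl⟩ : ∃ c, b = a + (c + 1) := ⟨b - a - 1, by omega⟩
    rw [pow_add, mul_assoc] at h
    have h1 := mul_left_cancel₀ (pow_ne_zero a hπ) h
    exact hx ⟨π ^ c * y, by rw [h1, pow_succ']; ring⟩
  · exact heq
  · exfalso
    obtain ⟨c, rfl⟩ : ∃ c, a = b + (c + 1) := ⟨a - b - 1, by omega⟩
    rw [pow_add, mul_assoc] at h
    have h1 := mul_left_cancel₀ (pow_ne_zero b hπ) h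
    exact hy ⟨π ^ c * x, by rw [← h1, pow_succ']; ring⟩

theorem np_of_sf32 {l : ℕ} (hl : l.Prime) (fs : Fin (l - 1) → F[X]) (hsq : Squarefree (∏ i, fs i))
    (hd : 0 < (∏ i, fs i).natDegree) : NP32 l (∏ i, fs i ^ ((i : ℕ) + 1)) := by
  classical
  have hne : (∏ i, fs i) ≠ 0 := hsq.ne_zero
  have hnu : ¬ IsUnit (∏ i, fs i) := by
    intro h
    rw [Polynomial.natDegree_eq_zero_of_isUnit h] at hd
    exact lt_irrefl _ hd
  obtain ⟨π, hπ, hdvd⟩ := WfDvdMonoid.exists_irreducible_factor hnu hne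
  have hp : Prime π := hπ.prime
  obtain ⟨i₀, -, hi₀⟩ := (hp.dvd_finsetProd_iff fs).1 hdvd
  obtain ⟨u, hu⟩ := hi₀
  have hprod : fs i₀ * ∏ i ∈ Finset.univ.erase i₀, fs i = ∏ i, fs i :=
    Finset.mul_prod_erase _ _ (Finset.mem_univ i₀)
  have hno : ¬ π ∣ u * ∏ i ∈ Finset.univ.erase i₀, fs i := by
    rintro ⟨w, hw⟩
    apply hp.not_isUnit
    apply hsq π
    refine ⟨w, ?_⟩
    rw [← hprod, hu, mul_assoc, hw]
    ring
  have hu1 : ¬ π ∣ u := fun h => hno (h.mul_right _)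
  have hi1 : ∀ i, i ≠ i₀ → ¬ π ∣ fs i := by
    intro i hi h
    apply hno
    refine Dvd.dvd.mul_left (h.trans (Finset.dvd_prod_of_mem _ ?_)) _
    exact Finset.mem_erase.2 ⟨hi, Finset.mem_univ i⟩
  obtain ⟨g, hg⟩ : ∃ g, g = u ^ ((i₀ : ℕ) + 1) *
    ∏ i ∈ Finset.univ.erase i₀, fs i ^ ((i : ℕ) + 1) := ⟨_, rfl⟩
  have hg1 : ¬ π ∣ g := by
    rw [hg]
    intro h
    rcases hp.dvd_or_dvd h with h | h
    · exact hu1 (hp.dvd_of_dvd_pow h)
    · obtain ⟨i, hi, hi'⟩ := (hp.dvd_finsetProd_iff _).1 h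
      exact hi1 i (Finset.ne_of_mem_erase hi) (hp.dvd_of_dvd_pow hi')
  have hf : (∏ i, fs i ^ ((i : ℕ) + 1)) = π ^ ((i₀ : ℕ) + 1) * g := by
    rw [← Finset.mul_prod_erase _ _ (Finset.mem_univ i₀), hg, hu, mul_pow]
    ring
  intro c hc p q h
  by_contra hp0
  have hq0 : q ≠ 0 := by
    rintro rfl
    rw [zero_pow hl.ne_zero, mul_zero, eq_comm, mul_eq_zero] at h
    rcases h with h | h
    · rw [Finset.prod_eq_zero_iff] at h
      obtain ⟨i, -, hi⟩ := h
      apply hne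
      rw [Finset.prod_eq_zero_iff]
      exact ⟨i, Finset.mem_univ i, pow_eq_zero_iff (Nat.succ_ne_zero _) |>.1 hi⟩
    · exact hp0 (pow_eq_zero_iff hl.ne_zero |>.1 h)
  obtain ⟨a, p', hp', rfl⟩ := WfDvdMonoid.max_power_factor hp0 hπ
  obtain ⟨b, q', hq', rfl⟩ := WfDvdMonoid.max_power_factor hq0 hπ
  have h1 : π ^ (b * l) * (C c * q' ^ l) = π ^ ((i₀ : ℕ) + 1 + a * l) * (g * p' ^ l) := by
    rw [hf, mul_pow, mul_pow, ← pow_mul, ← pow_mul] at h
    rw [pow_add]
    linear_combination h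
  have h2 : ¬ π ∣ C c * q' ^ l := by
    intro h3
    rcases hp.dvd_or_dvd h3 with h4 | h4
    · exact hp.not_isUnit (isUnit_of_dvd_unit h4 (isUnit_C.2 hc.isUnit))
    · exact hq' (hp.dvd_of_dvd_pow h4)
  have h3 : ¬ π ∣ g * p' ^ l := by
    intro h4
    rcases hp.dvd_or_dvd h4 with h5 | h5
    · exact hg1 h5
    · exact hp' (hp.dvd_of_dvd_pow h5)
  have h4 := pow_cancel32 hp.ne_zero h2 h3 h1
  have h5 : l ∣ (i₀ : ℕ) + 1 := by
    have h6 : l ∣ (i₀ : ℕ) + 1 + a * l := ⟨b, by rw [← h4]; ring⟩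
    exact (Nat.dvd_add_left (Dvd.intro_left a rfl)).1 h6
  have h6 := Nat.le_of_dvd (Nat.succ_pos _) h5
  have h7 := i₀.2
  have h8 := hl.two_le
  omega

theorem np_taylor32 {l : ℕ} {f : F[X]} (h : NP32 l f) (x₀ : F) : NP32 l (taylor x₀ f) := by
  intro c hc p q hpq
  have h1 : taylorAlgHom (-x₀) (C c * q ^ l) = taylorAlgHom (-x₀) (taylor x₀ f * p ^ l) := by
    rw [hpq]
  rw [map_mul, map_mul, map_pow, map_pow] at h1
  have h2 : taylorAlgHom (-x₀) (C c) = C c := taylor_C (-x₀) c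
  have h3 : taylorAlgHom (-x₀) (taylor x₀ f) = f := by
    change taylor (-x₀) (taylor x₀ f) = f
    rw [taylor_taylor, neg_add_cancel, taylor_zero]
  rw [h2, h3] at h1
  have h4 := h c hc _ _ h1
  exact (taylor_injective (-x₀)) (by rw [map_zero]; exact h4)

theorem np_deg32 {l : ℕ} {f : F[X]} (h : NP32 l f) (hf : f ≠ 0) : 0 < f.natDegree := by
  by_contra hcon
  have h1 : f = C (f.coeff 0) := eq_C_of_natDegree_eq_zero (by omega)
  have h2 : f.coeff 0 ≠ 0 := by
    intro h3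
    rw [h3, C_0] at h1
    exact hf h1
  have h3 := h (f.coeff 0) h2 1 1 (by rw [← h1])
  exact one_ne_zero h3

/-! ## The parameters -/

open scoped Classical in
theorem card_bound32 [Fintype F] {l : ℕ} (hl : l.Prime) (f : F[X]) (hf : f ≠ 0) (hnp : NP32 l f)
    (N : ℕ) (hN : l * N + 1 = Fintype.card F)
    (hfac : ((2 * l ^ 2 * f.natDegree - 1).factorial : F) ≠ 0)
    (hbig : 2 * l * f.natDegree * (2 * l ^ 2 * f.natDegree ^ 2 + 2 * l * f.natDegree + 1) +
      f.natDegree < N) (a : F) :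
    2 * l ^ 2 * (Finset.univ.filter fun x : F => f.eval x ^ N = a).card ≤
      2 * l ^ 2 * f.natDegree + (2 * l + 1) * Fintype.card F := by
  set q := Fintype.card F with hqdef
  set D := f.natDegree with hD
  have hD0 : 0 < D := np_deg32 hnp hf
  have hl0 := hl.pos
  have hDN : D < N := lt_of_le_of_lt (Nat.le_add_left _ _) hbig
  have hNq : N < q := by
    have : N ≤ l * N := Nat.le_mul_of_pos_left N hl0
    omega
  have hdq : D < q := hDN.trans hNq
  -- a point where `f` does not vanish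
  obtain ⟨x₀, hx₀⟩ : ∃ x₀ : F, f.eval x₀ ≠ 0 := by
    by_contra hne
    push Not at hne
    have h1 : (Finset.univ : Finset F).card ≤ f.roots.toFinset.card :=
      Finset.card_le_card fun x _ => by
        rw [Multiset.mem_toFinset, mem_roots hf]; exact hne x
    have h2 := (Multiset.toFinset_card_le f.roots).trans f.card_roots'
    rw [Finset.card_univ] at h1
    omega
  have hcard : (Finset.univ.filter fun x : F => f.eval x ^ N = a).card =
      (Finset.univ.filter fun x : F => (taylor x₀ f).eval x ^ N = a).card := by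
    refine Finset.card_bij (fun x _ => x - x₀) ?_ ?_ ?_
    · intro x hx
      rw [Finset.mem_filter] at hx ⊢
      rw [taylor_eval, sub_add_cancel]
      exact ⟨Finset.mem_univ _, hx.2⟩
    · intro x _ y _ h
      exact sub_left_injective h
    · intro y hy
      rw [Finset.mem_filter] at hy
      refine ⟨y + x₀, ?_, add_sub_cancel_right _ _⟩
      rw [Finset.mem_filter]
      rw [taylor_eval] at hy
      exact ⟨Finset.mem_univ _, hy.2⟩
  rw [hcard]
  have hnd : (taylor x₀ f).natDegree = D := by rw [natDegree_taylor]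
  have hc0 : (taylor x₀ f).coeff 0 ≠ 0 := by rw [taylor_coeff_zero]; exact hx₀
  have hf' : taylor x₀ f ≠ 0 := by
    intro h
    rw [h, coeff_zero] at hc0
    exact hc0 rfl
  obtain ⟨m, hm⟩ : ∃ m, m = N - D := ⟨_, rfl⟩
  have hmD : m + D = N := by omega
  obtain ⟨K, hK⟩ : ∃ K, K = 2 * l * D := ⟨_, rfl⟩
  have hL : 2 * l ^ 2 * D = l * K := by rw [hK]; ring
  have hKm : K * (l * K * D + K + 1) < m := by
    have h1 : K * (l * K * D + K + 1) = 2 * l * D * (2 * l ^ 2 * D ^ 2 + 2 * l * D + 1) := by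
      rw [hK]; ring
    omega
  have hK0 : 0 < K := by rw [hK]; positivity
  have key := count_le32 hl (taylor x₀ f) hf' (np_taylor32 hnp x₀) hc0 N (l * K) (K + 1) m hN a
    (by omega) (by rw [hnd, hmD]; omega) (Nat.succ_pos _) (by positivity) (by
      rw [hnd]
      have h1 : l * K * (m + l * K * D + (K + 1)) = l * (K * m + K * (l * K * D + K + 1)) := by ring
      have h2 : (K + 1) * (l * m) = l * (K * m + m) := by ring
      rw [h1, h2]
      exact Nat.mul_lt_mul_of_pos_left (Nat.add_lt_add_left hKm _) hl0) (by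
      rw [← hL]; exact hfac)
  rw [hnd, Nat.add_sub_cancel, ← hqdef] at key
  set n := (Finset.univ.filter fun x : F => (taylor x₀ f).eval x ^ N = a).card
  have h1 : m + (l - 1) * N * D ≤ q * D := by
    have h2 : m ≤ N * D := (by omega : m ≤ N).trans (Nat.le_mul_of_pos_right N hD0)
    calc m + (l - 1) * N * D ≤ N * D + (l - 1) * N * D := Nat.add_le_add_right h2 _
      _ = ((l - 1) + 1) * (N * D) := by ring
      _ = l * N * D := by rw [Nat.sub_add_cancel hl0]; ring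
      _ ≤ q * D := Nat.mul_le_mul_right _ (by omega)
  have h2 : D * (2 * l ^ 2 * n) ≤ D * (2 * l ^ 2 * D + (2 * l + 1) * q) := by
    calc D * (2 * l ^ 2 * n) = l * K * n := by rw [← hL]; ring
      _ ≤ l * K * D + (m + (l - 1) * N * D) + K * q := key
      _ ≤ l * K * D + q * D + K * q := by omega
      _ = D * (2 * l ^ 2 * D + (2 * l + 1) * q) := by rw [← hL, hK]; ring
  exact Nat.le_of_mul_le_mul_left h2 hD0

/-- in the multiplicative group of a finite field -/
theorem exists_root32 [Fintype F] {l N : ℕ} (hl : 0 < l) (hN : l * N + 1 = Fintype.card F) {z : F}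
    (hz : z ≠ 0) (h : z ^ N = 1) : ∃ y : F, y ≠ 0 ∧ y ^ l = z := by
  classical
  obtain ⟨g, hg⟩ := IsCyclic.exists_generator (α := Fˣ)
  obtain ⟨k, hk⟩ : ∃ k : ℕ, g ^ k = Units.mk0 z hz := by
    have h1 := hg (Units.mk0 z hz)
    rw [← mem_powers_iff_mem_zpowers] at h1
    exact h1
  have hord : orderOf g = l * N := by
    rw [orderOf_eq_card_of_forall_mem_zpowers hg, Nat.card_eq_fintype_card, Fintype.card_units]
    omega
  have hN0 : 0 < N := by
    rcases Nat.eq_zero_or_pos N with h0 | h0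
    · have := Fintype.one_lt_card (α := F)
      rw [h0] at hN
      omega
    · exact h0
  have h1 : g ^ (k * N) = 1 := by
    rw [pow_mul, hk]
    ext
    rw [Units.val_pow_eq_pow_val, Units.val_mk0, h, Units.val_one]
  have h2 : l * N ∣ k * N := by
    rw [← hord]
    exact orderOf_dvd_of_pow_eq_one h1
  obtain ⟨j, rfl⟩ := (Nat.mul_dvd_mul_iff_right hN0).1 h2
  refine ⟨((g ^ j : Fˣ) : F), Units.ne_zero _, ?_⟩
  rw [← Units.val_pow_eq_pow_val, ← pow_mul, mul_comm j l, hk, Units.val_mk0]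

/-- **BLOCK STL** -/
theorem sTL : StmtSTL := by
  intro l hl d hd
  obtain ⟨D', hD'⟩ : ∃ D', D' = l * d := ⟨_, rfl⟩
  refine ⟨l * (2 * l * D' * (2 * l ^ 2 * D' ^ 2 + 2 * l * D' + 1) + D' + 2) + 2 * l ^ 3 * D' + 2,
    ?_⟩
  intro F _ _ fs hdeg hsq hfac hcard hdvd b hb
  classical
  have := Fintype.ofFinite F
  rw [Nat.card_eq_fintype_card] at hcard hdvd
  obtain ⟨q, hq⟩ : ∃ q, q = Fintype.card F := ⟨_, rfl⟩
  rw [← hq] at hcard hdvd
  have hl0 := hl.pos
  have hl2 := hl.two_le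
  obtain ⟨N, hN⟩ := hdvd
  have hN1 : l * N + 1 = Fintype.card F := by
    rw [← hq]
    omega
  obtain ⟨f, hfdef⟩ : ∃ f : F[X], f = ∏ i, fs i ^ ((i : ℕ) + 1) := ⟨_, rfl⟩
  have hnp : NP32 l f := by
    rw [hfdef]
    exact np_of_sf32 hl fs hsq (by rw [hdeg]; exact hd)
  have hfs : ∀ i, fs i ≠ 0 := by
    intro i hi
    apply hsq.ne_zero
    rw [Finset.prod_eq_zero_iff]
    exact ⟨i, Finset.mem_univ i, hi⟩
  have hf : f ≠ 0 := by
    rw [hfdef, Finset.prod_ne_zero_iff]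
    exact fun i _ => pow_ne_zero _ (hfs i)
  have hDle : f.natDegree ≤ D' := by
    rw [hfdef, hD', natDegree_prod _ _ fun i _ => pow_ne_zero _ (hfs i), ← hdeg,
      natDegree_prod _ _ fun i _ => hfs i, Finset.mul_sum]
    refine Finset.sum_le_sum fun i _ => ?_
    rw [natDegree_pow]
    have := i.2
    exact Nat.mul_le_mul_right _ (by omega)
  obtain ⟨D, hD⟩ : ∃ D, D = f.natDegree := ⟨_, rfl⟩
  have hD0 : 0 < D := by rw [hD]; exact np_deg32 hnp hf
  rw [← hD] at hDle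
  have hfac' : ((2 * l ^ 2 * f.natDegree - 1).factorial : F) ≠ 0 := by
    intro h0
    apply hfac
    have h1 : 2 * l ^ 2 * f.natDegree - 1 ≤
        l * (2 * l * D' * (2 * l ^ 2 * D' ^ 2 + 2 * l * D' + 1) + D' + 2) + 2 * l ^ 3 * D' + 2 := by
      rw [← hD]
      have h2 : 2 * l ^ 2 * D ≤ 2 * l ^ 3 * D' := by
        calc 2 * l ^ 2 * D ≤ 2 * l ^ 3 * D := by
              refine Nat.mul_le_mul_right _ (Nat.mul_le_mul_left _ ?_)
              exact Nat.pow_le_pow_right hl0 (by omega)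
          _ ≤ 2 * l ^ 3 * D' := Nat.mul_le_mul_left _ hDle
      omega
    obtain ⟨w, hw⟩ := Nat.factorial_dvd_factorial h1
    rw [hw, Nat.cast_mul, h0, zero_mul]
  have hbig : 2 * l * f.natDegree * (2 * l ^ 2 * f.natDegree ^ 2 + 2 * l * f.natDegree + 1) +
      f.natDegree < N := by
    rw [← hD]
    have h1 : 2 * l * D * (2 * l ^ 2 * D ^ 2 + 2 * l * D + 1) + D ≤
        2 * l * D' * (2 * l ^ 2 * D' ^ 2 + 2 * l * D' + 1) + D' := by gcongr
    refine lt_of_le_of_lt h1 ?_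
    by_contra hcon
    have h2 : l * N ≤ l * (2 * l * D' * (2 * l ^ 2 * D' ^ 2 + 2 * l * D' + 1) + D') :=
      Nat.mul_le_mul_left l (not_lt.1 hcon)
    have h3 : l * (2 * l * D' * (2 * l ^ 2 * D' ^ 2 + 2 * l * D' + 1) + D' + 2) =
        l * (2 * l * D' * (2 * l ^ 2 * D' ^ 2 + 2 * l * D' + 1) + D') + l * 2 := by ring
    omega
  have hcb := fun a : F => card_bound32 hl f hf hnp N hN1 hfac' hbig a
  rw [← hD, ← hq] at hcb
  -- the class of `b`
  obtain ⟨a, ha⟩ : ∃ a : F, a = (b ^ N)⁻¹ := ⟨_, rfl⟩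
  have hpow : ∀ z : F, z ≠ 0 → (z ^ N) ^ l = 1 := by
    intro z hz
    rw [← pow_mul, mul_comm N l]
    have h1 := FiniteField.pow_card_sub_one_eq_one z hz
    rw [← hN1, Nat.add_sub_cancel] at h1
    exact h1
  have hal : a ^ l = 1 := by rw [ha, inv_pow, hpow b hb, inv_one]
  obtain ⟨x, hx0, hx⟩ : ∃ x : F, f.eval x ≠ 0 ∧ f.eval x ^ N = a := by
    by_contra hne
    push Not at hne
    obtain ⟨Z, hZ⟩ : ∃ Z : Finset F, Z = (nthRoots l (1 : F)).toFinset := ⟨_, rfl⟩
    have hZmem : ∀ z : F, z ∈ Z ↔ z ^ l = 1 := by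
      intro z
      rw [hZ, Multiset.mem_toFinset, mem_nthRoots hl0]
    have hZc : Z.card ≤ l := by
      rw [hZ]
      exact (Multiset.toFinset_card_le _).trans (card_nthRoots l 1)
    have hZe : (Z.erase a).card ≤ l - 1 := by
      rw [Finset.card_erase_of_mem ((hZmem a).2 hal)]
      omega
    have h1 : (Finset.univ : Finset F) ⊆ f.roots.toFinset ∪
        (Z.erase a).biUnion fun z => Finset.univ.filter fun x : F => f.eval x ^ N = z := by
      intro x _
      rw [Finset.mem_union, Multiset.mem_toFinset, mem_roots hf, Finset.mem_biUnion]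
      by_cases h0 : f.eval x = 0
      · exact Or.inl h0
      · refine Or.inr ⟨f.eval x ^ N, ?_, ?_⟩
        · rw [Finset.mem_erase, hZmem]
          exact ⟨hne x h0, hpow _ h0⟩
        · rw [Finset.mem_filter]
          exact ⟨Finset.mem_univ _, rfl⟩
    have h3 := (Finset.card_le_card h1).trans (Finset.card_union_le _ _)
    have h4 : ((Z.erase a).biUnion fun z => Finset.univ.filter fun x : F => f.eval x ^ N = z).card ≤
        ∑ z ∈ Z.erase a, (Finset.univ.filter fun x : F => f.eval x ^ N = z).card :=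
      Finset.card_biUnion_le
    have h5 := (Multiset.toFinset_card_le f.roots).trans f.card_roots'
    rw [Finset.card_univ, ← hq] at h3
    rw [← hD] at h5
    have h6 : 2 * l ^ 2 * ∑ z ∈ Z.erase a, (Finset.univ.filter fun x : F => f.eval x ^ N = z).card ≤
        (l - 1) * (2 * l ^ 2 * D + (2 * l + 1) * q) := by
      rw [Finset.mul_sum]
      calc ∑ z ∈ Z.erase a, 2 * l ^ 2 * (Finset.univ.filter fun x : F => f.eval x ^ N = z).card
          ≤ ∑ _z ∈ Z.erase a, (2 * l ^ 2 * D + (2 * l + 1) * q) := Finset.sum_le_sum fun z _ => hcb z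
        _ = (Z.erase a).card * (2 * l ^ 2 * D + (2 * l + 1) * q) := by
            rw [Finset.sum_const, smul_eq_mul]
        _ ≤ _ := Nat.mul_le_mul_right _ hZe
    have h7 : q ≤ D + ∑ z ∈ Z.erase a, (Finset.univ.filter fun x : F => f.eval x ^ N = z).card := by
      omega
    have h8 : 2 * l ^ 2 * q ≤ 2 * l ^ 2 * D + (l - 1) * (2 * l ^ 2 * D + (2 * l + 1) * q) := by
      calc 2 * l ^ 2 * q ≤ 2 * l ^ 2 * (D + ∑ z ∈ Z.erase a,
            (Finset.univ.filter fun x : F => f.eval x ^ N = z).card) := Nat.mul_le_mul_left _ h7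
        _ = 2 * l ^ 2 * D + 2 * l ^ 2 * ∑ z ∈ Z.erase a,
            (Finset.univ.filter fun x : F => f.eval x ^ N = z).card := by ring
        _ ≤ _ := Nat.add_le_add_left h6 _
    have h9 : 2 * l ^ 3 * D < q := by
      have h10 : 2 * l ^ 3 * D ≤ 2 * l ^ 3 * D' := Nat.mul_le_mul_left _ hDle
      omega
    obtain ⟨e, rfl⟩ : ∃ e, l = e + 1 := ⟨l - 1, by omega⟩
    rw [Nat.add_sub_cancel] at h8
    have h10 : 2 * (e + 1) ^ 2 * q + 2 * (e + 1) ^ 3 * D ≥ 0 := Nat.zero_le _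
    have h11 : (e + 2) * q ≤ 2 * (e + 1) ^ 3 * D := by
      have h12 : 2 * (e + 1) ^ 2 * q = (e + 2) * q + e * ((2 * (e + 1) + 1) * q) := by ring
      have h13 : 2 * (e + 1) ^ 2 * D + e * (2 * (e + 1) ^ 2 * D + (2 * (e + 1) + 1) * q) =
          2 * (e + 1) ^ 3 * D + e * ((2 * (e + 1) + 1) * q) := by ring
      omega
    have h12 : q ≤ (e + 2) * q := Nat.le_mul_of_pos_left q (by omega)
    omega
  have hbx : b * f.eval x ≠ 0 := mul_ne_zero hb hx0
  have hbxN : (b * f.eval x) ^ N = 1 := by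
    rw [mul_pow, hx, ha, mul_inv_cancel₀ (pow_ne_zero _ hb)]
  obtain ⟨y, hy0, hy⟩ := exists_root32 hl0 hN1 hbx hbxN
  exact ⟨x, y, hy0, by rw [hy, hfdef]⟩

end

end Pool.Agent.MLF
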