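import Mathlib

/-!
# Project MLF (MP_e66f84_ag), block STL: the nonvanishing lemma of Stepanov's method for `y ^ l = b f(x)`
-/

set_option autoImplicit false
set_option maxHeartbeats 1000000

namespace Pool.Agent.MLF

open Polynomial

noncomputable section

/-! ## The matrix of the multiplication by `f * sum r_t y^t`, where `f y^l = c` -/

section mat

variable {A B : Type} [CommRing A] [CommRing B] {l : ℕ} [NeZero l]

/-- the matrix -/
def MT32 (f c : A) (r : Fin l → A) : Matrix (Fin l) (Fin l) A :=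
  fun s t => if (s : ℕ) ≤ t then f * r (t - s) else c * r (t - s)

theorem MT_row32 (φ : A →+* B) (f c : A) (r : Fin l → A) (y : B) (hy : φ f * y ^ l = φ c)
    (s : Fin l) :
    ∑ t : Fin l, φ (MT32 f c r s t) * y ^ (t : ℕ) =
      φ f * y ^ (s : ℕ) * ∑ j : Fin l, φ (r j) * y ^ (j : ℕ) := by
  rw [← Equiv.sum_comp (Equiv.addLeft s), Finset.mul_sum]
  refine Finset.sum_congr rfl fun j _ => ?_
  have h1 : (Equiv.addLeft s) j = s + j := rfl
  rw [h1]
  have h2 : s + j - s = j := add_sub_cancel_left s j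
  have h3 : ((s + j : Fin l) : ℕ) = (s + j : ℕ) % l := Fin.val_add s j
  unfold MT32
  by_cases h4 : (s : ℕ) + j < l
  · have h5 : ((s + j : Fin l) : ℕ) = s + j := by rw [h3, Nat.mod_eq_of_lt h4]
    rw [if_pos (by rw [h5]; omega), h2, h5, map_mul, pow_add]
    ring
  · have h5 : ((s + j : Fin l) : ℕ) + l = s + j := by
      rw [h3, Nat.mod_eq_sub_mod (by omega), Nat.mod_eq_of_lt (by omega)]
      omega
    have hs := s.2
    have hj := j.2
    rw [if_neg (by omega), h2, map_mul, ← hy]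
    have h6 : φ f * y ^ (s : ℕ) * (φ (r j) * y ^ (j : ℕ)) =
        φ f * φ (r j) * y ^ ((s : ℕ) + j) := by rw [pow_add]; ring
    rw [h6, ← h5, pow_add]
    ring

theorem det_eq_zero32 (φ : A →+* B) (f c : A) (r : Fin l → A) (y : B) (hy : φ f * y ^ l = φ c)
    (hR : ∑ j : Fin l, φ (r j) * y ^ (j : ℕ) = 0) : φ (MT32 f c r).det = 0 := by
  have h1 : φ (MT32 f c r).det = ((MT32 f c r).map φ).det := by
    rw [RingHom.map_det]
    rfl
  have h2 : ((MT32 f c r).map φ).mulVec (fun t : Fin l => y ^ (t : ℕ)) = 0 := by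
    funext s
    rw [Matrix.mulVec, dotProduct]
    change ∑ t : Fin l, φ (MT32 f c r s t) * y ^ (t : ℕ) = 0
    rw [MT_row32 φ f c r y hy s, hR, mul_zero]
  have h3 : (((MT32 f c r).map φ).adjugate * ((MT32 f c r).map φ)).mulVec
      (fun t : Fin l => y ^ (t : ℕ)) = 0 := by
    rw [← Matrix.mulVec_mulVec, h2, Matrix.mulVec_zero]
  rw [Matrix.adjugate_mul, Matrix.smul_mulVec, Matrix.one_mulVec] at h3
  have h4 := congrFun h3 (0 : Fin l)
  rw [Pi.smul_apply, Pi.zero_apply, smul_eq_mul] at h4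
  have h5 : ((0 : Fin l) : ℕ) = 0 := rfl
  rw [h5, pow_zero, mul_one] at h4
  rw [h1, h4]

end mat

variable {F : Type} [Field F]

theorem MT_natDegree32 {l : ℕ} [NeZero l] (f : F[X]) (c : F) (r : Fin l → F[X]) (m : ℕ)
    (hr : ∀ t, (r t).natDegree ≤ m) :
    (MT32 f (C c) r).det.natDegree ≤ l * (m + f.natDegree) := by
  classical
  rw [Matrix.det_apply]
  refine natDegree_sum_le_of_forall_le _ _ fun σ _ => ?_
  refine (natDegree_smul_le _ _).trans ?_
  refine (natDegree_prod_le _ _).trans ?_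
  have h1 : ∀ i : Fin l, (MT32 f (C c) r (σ i) i).natDegree ≤ m + f.natDegree := by
    intro i
    unfold MT32
    split_ifs
    · refine natDegree_mul_le.trans ?_
      have := hr (i - σ i)
      omega
    · refine natDegree_mul_le.trans ?_
      have := hr (i - σ i)
      rw [natDegree_C]
      omega
  refine (Finset.sum_le_sum fun i _ => h1 i).trans ?_
  rw [Finset.sum_const, Finset.card_univ, Fintype.card_fin, smul_eq_mul]

/-- `f` is not an `l`-th power up to a constant -/
def NP32 (l : ℕ) (f : F[X]) : Prop :=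
  ∀ (c : F), c ≠ 0 → ∀ p q : F[X], C c * q ^ l = f * p ^ l → p = 0

/-- there is `y` with `f y ^ l = c` of degree `l` over `F(x)` -/
theorem exists_y32 {l : ℕ} (hl : l.Prime) (f : F[X]) (hf : f ≠ 0) (hnp : NP32 l f) (c : F)
    (hc : c ≠ 0) : ∃ (K : Type) (_ : Field K) (φ : F[X] →+* K) (y : K), φ f ≠ 0 ∧
      φ f * y ^ l = φ (C c) ∧
      ∀ g : Fin l → F[X], ∑ t : Fin l, φ (g t) * y ^ (t : ℕ) = 0 → g = 0 := by
  classical
  let K₀ := FractionRing F[X]
  let K := AlgebraicClosure K₀
  have hfi : algebraMap F[X] K₀ f ≠ 0 := by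
    rw [Ne, IsFractionRing.to_map_eq_zero_iff]
    exact hf
  have hci : algebraMap F[X] K₀ (C c) ≠ 0 := by
    rw [Ne, IsFractionRing.to_map_eq_zero_iff, C_eq_zero]
    exact hc
  obtain ⟨a, ha⟩ : ∃ a : K₀, a = algebraMap F[X] K₀ (C c) / algebraMap F[X] K₀ f := ⟨_, rfl⟩
  obtain ⟨y, hy⟩ := IsAlgClosed.exists_pow_nat_eq (algebraMap K₀ K a) hl.pos
  have hirr : Irreducible (X ^ l - C a : K₀[X]) := by
    apply X_pow_sub_C_irreducible_of_prime hl
    intro b hb
    obtain ⟨p, q, hq, rfl⟩ := IsFractionRing.div_surjective (A := F[X]) b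
    have hq0 : algebraMap F[X] K₀ q ≠ 0 := by
      rw [Ne, IsFractionRing.to_map_eq_zero_iff]
      exact nonZeroDivisors.ne_zero hq
    have h1 : algebraMap F[X] K₀ (C c * q ^ l) = algebraMap F[X] K₀ (f * p ^ l) := by
      rw [div_pow, ha, div_eq_div_iff (pow_ne_zero _ hq0) hfi] at hb
      rw [map_mul, map_mul, map_pow, map_pow, ← hb]
      ring
    have h2 := IsFractionRing.injective F[X] K₀ h1
    have h3 := hnp c hc p q h2
    rw [h3, map_zero, zero_div, zero_pow hl.ne_zero, ha, eq_comm, div_eq_zero_iff] at hb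
    rcases hb with hb | hb
    · exact hci hb
    · exact hfi hb
  have hmon : (X ^ l - C a : K₀[X]).Monic := monic_X_pow_sub_C a hl.ne_zero
  have hroot : aeval y (X ^ l - C a : K₀[X]) = 0 := by
    rw [map_sub, map_pow, aeval_X, aeval_C, hy, sub_self]
  have hmin : minpoly K₀ y = X ^ l - C a := (minpoly.eq_of_irreducible_of_monic hirr hroot hmon).symm
  refine ⟨K, inferInstance, (algebraMap K₀ K).comp (algebraMap F[X] K₀), y, ?_, ?_, ?_⟩
  · rw [RingHom.comp_apply, Ne, map_eq_zero]
    exact hfi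
  · rw [RingHom.comp_apply, RingHom.comp_apply, hy, ← map_mul, ha, mul_div_cancel₀ _ hfi]
  · intro g hg
    obtain ⟨G, hG⟩ : ∃ G : K₀[X], G = ∑ t : Fin l, C (algebraMap F[X] K₀ (g t)) * X ^ (t : ℕ) :=
      ⟨_, rfl⟩
    have h1 : aeval y G = 0 := by
      rw [hG, map_sum, ← hg]
      refine Finset.sum_congr rfl fun t _ => ?_
      rw [map_mul, aeval_C, map_pow, aeval_X]
      rfl
    have h2 : G.degree < l := by
      rw [← mem_degreeLT, hG]
      refine Submodule.sum_mem _ fun t _ => ?_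
      rw [mem_degreeLT]
      refine lt_of_le_of_lt (degree_C_mul_X_pow_le _ _) ?_
      exact_mod_cast t.2
    have h3 : G = 0 := by
      by_contra hne
      have h4 := minpoly.dvd K₀ y h1
      rw [hmin] at h4
      have h5 := degree_le_of_dvd h4 hne
      rw [degree_X_pow_sub_C hl.pos] at h5
      exact absurd (lt_of_le_of_lt h5 h2) (lt_irrefl _)
    funext t
    have h4 : G.coeff t = algebraMap F[X] K₀ (g t) := by
      rw [hG, finsetSum_coeff, Finset.sum_eq_single t]
      · rw [coeff_C_mul_X_pow, if_pos rfl]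
      · intro b _ hb
        rw [coeff_C_mul_X_pow, if_neg]
        intro h
        exact hb (Fin.ext h.symm)
      · intro h
        exact absurd (Finset.mem_univ t) h
    rw [h3, coeff_zero] at h4
    rw [Pi.zero_apply]
    exact (IsFractionRing.to_map_eq_zero_iff).1 h4.symm

/-- the nonvanishing lemma modulo `X ^ q` -/
theorem nonv32 {l : ℕ} (hl : l.Prime) (f : F[X]) (hf : f ≠ 0) (hnp : NP32 l f) (c : F)
    (hc : c ≠ 0) (q m : ℕ) (hm : l * (m + f.natDegree) < q) (Y : F[X])
    (hY : X ^ q ∣ f * Y ^ l - C c) (r : Fin l → F[X]) (hr : ∀ t, (r t).natDegree ≤ m)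
    (hR : X ^ q ∣ ∑ t : Fin l, r t * Y ^ (t : ℕ)) : r = 0 := by
  classical
  have : NeZero l := ⟨hl.ne_zero⟩
  -- the determinant is zero
  have hdet : (MT32 f (C c) r).det = 0 := by
    have h1 : Ideal.Quotient.mk (Ideal.span {(X : F[X]) ^ q}) (MT32 f (C c) r).det = 0 := by
      refine det_eq_zero32 (Ideal.Quotient.mk (Ideal.span {(X : F[X]) ^ q})) f (C c) r
        (Ideal.Quotient.mk _ Y) ?_ ?_
      · rw [← map_pow, ← map_mul, Ideal.Quotient.eq, Ideal.mem_span_singleton]
        exact hY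
      · rw [← (Ideal.Quotient.eq_zero_iff_mem.2 (Ideal.mem_span_singleton.2 hR)), map_sum]
        refine Finset.sum_congr rfl fun t _ => ?_
        rw [map_mul, map_pow]
    rw [Ideal.Quotient.eq_zero_iff_mem, Ideal.mem_span_singleton] at h1
    by_contra hne
    have h2 := natDegree_le_of_dvd h1 hne
    rw [natDegree_X_pow] at h2
    have h3 := MT_natDegree32 f c r m hr
    omega
  obtain ⟨v, hv0, hv⟩ := Matrix.exists_vecMul_eq_zero_iff.2 hdet
  obtain ⟨K, _, φ, y, hφf, hy, hlin⟩ := exists_y32 hl f hf hnp c hc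
  have h1 : (∑ s : Fin l, φ (v s) * y ^ (s : ℕ)) * (∑ j : Fin l, φ (r j) * y ^ (j : ℕ)) = 0 := by
    have h2 : φ f * ((∑ s : Fin l, φ (v s) * y ^ (s : ℕ)) *
        (∑ j : Fin l, φ (r j) * y ^ (j : ℕ))) = 0 := by
      calc φ f * ((∑ s : Fin l, φ (v s) * y ^ (s : ℕ)) * (∑ j : Fin l, φ (r j) * y ^ (j : ℕ)))
          = ∑ s : Fin l, φ (v s) * (φ f * y ^ (s : ℕ) * ∑ j : Fin l, φ (r j) * y ^ (j : ℕ)) := by
            rw [Finset.sum_mul, Finset.mul_sum]
            refine Finset.sum_congr rfl fun s _ => ?_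
            ring
        _ = ∑ s : Fin l, φ (v s) * ∑ t : Fin l, φ (MT32 f (C c) r s t) * y ^ (t : ℕ) := by
            refine Finset.sum_congr rfl fun s _ => ?_
            rw [MT_row32 φ f (C c) r y hy s]
        _ = ∑ t : Fin l, φ (Matrix.vecMul v (MT32 f (C c) r) t) * y ^ (t : ℕ) := by
            simp_rw [Finset.mul_sum]
            rw [Finset.sum_comm]
            refine Finset.sum_congr rfl fun t _ => ?_
            rw [Matrix.vecMul, dotProduct, map_sum, Finset.sum_mul]
            refine Finset.sum_congr rfl fun s _ => ?_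
            rw [map_mul]
            ring
        _ = 0 := by
            rw [hv]
            simp
    exact (mul_eq_zero.1 h2).resolve_left hφf
  rcases mul_eq_zero.1 h1 with h2 | h2
  · exact absurd (hlin v h2) hv0
  · exact hlin r h2

end

end Pool.Agent.MLF
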