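import Pool.Agent.Helper32.MLF.Nonv
import Pool.Agent.Helper97.MP.Step

/-!
# Project MLF (MP_e66f84_ag), block STL: Stepanov's method for `y ^ l = b f(x)`, the upper bound
-/

set_option autoImplicit false
set_option maxHeartbeats 1000000

namespace Pool.Agent.MLF

open Polynomial
open Pool.Agent.MPF (op op_zero op_succ op_natDegree deriv_X_pow f_mul_deriv_pow natDeg_lt)

noncomputable section

variable {F : Type} [Field F]

/-- the `i`-th derivative of `T 0` -/
def TL32 (f : F[X]) (N q L J l : ℕ) (r : Fin J → Fin l → F[X]) (i : ℕ) : F[X] :=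
  ∑ j : Fin J, ∑ t : Fin l, (f ^ (L - i) * (op f ((L : F) + ((t : ℕ) * N : ℕ)) i (r j t) *
    f ^ ((t : ℕ) * N))) * X ^ ((j : ℕ) * q)

theorem term32 (f w : F[X]) (n M : ℕ) :
    derivative (f ^ (n + 1) * (w * f ^ M)) =
      f ^ n * ((f * derivative w + C ((n : F) + 1 + (M : F)) * (derivative f * w)) * f ^ M) := by
  have h1 := f_mul_deriv_pow f M
  rw [derivative_mul, derivative_pow_succ, derivative_mul]
  have h2 : f ^ (n + 1) * (derivative w * f ^ M + w * derivative (f ^ M)) =
      f ^ n * (f * derivative w * f ^ M + w * (f * derivative (f ^ M))) := by ring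
  rw [h2, h1, C_add, C_add]
  simp only [map_add, map_natCast, map_one]
  ring

theorem deriv_TL32 (f : F[X]) (N q L J l : ℕ) (hq : (q : F) = 0) (r : Fin J → Fin l → F[X]) (i : ℕ)
    (hi : i < L) : derivative (TL32 f N q L J l r i) = TL32 f N q L J l r (i + 1) := by
  obtain ⟨n, hn⟩ : ∃ n, L - i = n + 1 := ⟨L - i - 1, by omega⟩
  have hn' : L - (i + 1) = n := by omega
  have hL : (L : F) = i + n + 1 := by
    have : L = i + n + 1 := by omega
    rw [this]; push_cast; ring
  unfold TL32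
  rw [hn, hn', derivative_sum]
  refine Finset.sum_congr rfl fun j _ => ?_
  rw [derivative_sum]
  refine Finset.sum_congr rfl fun t _ => ?_
  rw [derivative_mul, deriv_X_pow q hq, mul_zero, add_zero, term32, op_succ]
  congr 6
  rw [hL]
  ring

theorem iter_TL32 (f : F[X]) (N q L J l : ℕ) (hq : (q : F) = 0) (r : Fin J → Fin l → F[X]) (i : ℕ)
    (hi : i ≤ L) : derivative^[i] (TL32 f N q L J l r 0) = TL32 f N q L J l r i := by
  induction i with
  | zero => rfl
  | succ i ih => rw [Function.iterate_succ_apply', ih (by omega), deriv_TL32 f N q L J l hq r i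
      (by omega)]

/-- the condition -/
def EL32 (f : F[X]) (N L J l : ℕ) (a : F) (r : Fin J → Fin l → F[X]) (i : ℕ) : F[X] :=
  ∑ j : Fin J, ∑ t : Fin l, C (a ^ (t : ℕ)) * op f ((L : F) + ((t : ℕ) * N : ℕ)) i (r j t) *
    X ^ (j : ℕ)

theorem eval_TL32 (f : F[X]) (N q L J l : ℕ) (a : F) (r : Fin J → Fin l → F[X]) (i : ℕ) (x : F)
    (hx : x ^ q = x) (ha : f.eval x ^ N = a) :
    (TL32 f N q L J l r i).eval x = (f.eval x) ^ (L - i) * (EL32 f N L J l a r i).eval x := by
  unfold TL32 EL32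
  rw [eval_finsetSum, eval_finsetSum, Finset.mul_sum]
  refine Finset.sum_congr rfl fun j _ => ?_
  rw [eval_finsetSum, eval_finsetSum, Finset.mul_sum]
  refine Finset.sum_congr rfl fun t _ => ?_
  simp only [eval_mul, eval_pow, eval_C, eval_X]
  rw [mul_comm (j : ℕ) q, pow_mul x, hx, mul_comm (t : ℕ) N, pow_mul (eval x f), ha]
  ring

/-- nonvanishing -/
theorem nonvJ32 [Fintype F] {l : ℕ} (hl : l.Prime) (f : F[X]) (hf : f ≠ 0) (hnp : NP32 l f)
    (hf0 : f.coeff 0 ≠ 0) (N m : ℕ) (hN : l * N + 1 = Fintype.card F)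
    (hm : l * (m + f.natDegree) < Fintype.card F) (J : ℕ) (r : Fin J → Fin l → F[X])
    (hr : ∀ j t, (r j t).natDegree ≤ m)
    (h : ∑ j : Fin J, (∑ t : Fin l, r j t * (f ^ N) ^ (t : ℕ)) *
      X ^ ((j : ℕ) * Fintype.card F) = 0) : ∀ j, r j = 0 := by
  set q := Fintype.card F with hq
  by_contra hne
  push Not at hne
  have hex : ∃ n : ℕ, ∃ hn : n < J, r ⟨n, hn⟩ ≠ 0 := by
    obtain ⟨j, hj⟩ := hne
    exact ⟨j, j.2, hj⟩
  classical
  obtain ⟨hn, hn2⟩ := Nat.find_spec hex
  set n := Nat.find hex with hndef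
  have hmin : ∀ i : Fin J, (i : ℕ) < n → r i = 0 := fun i hi => by
    have := Nat.find_min hex hi
    push Not at this
    exact this i.2
  have hdiv : X ^ q ∣ ∑ t : Fin l, r ⟨n, hn⟩ t * (f ^ N) ^ (t : ℕ) := by
    have h1 : (X : F[X]) ^ ((n + 1) * q) ∣
        (∑ t : Fin l, r ⟨n, hn⟩ t * (f ^ N) ^ (t : ℕ)) * X ^ (n * q) := by
      rw [← Finset.add_sum_erase _ _ (Finset.mem_univ (⟨n, hn⟩ : Fin J))] at h
      rw [eq_neg_of_add_eq_zero_left h]
      rw [dvd_neg]
      refine Finset.dvd_sum fun i hi => ?_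
      rcases lt_trichotomy (i : ℕ) n with hlt | heq | hgt
      · rw [hmin i hlt]
        simp
      · exact absurd (Fin.ext heq) (Finset.ne_of_mem_erase hi)
      · exact Dvd.dvd.mul_left (pow_dvd_pow _ (Nat.mul_le_mul_right _ hgt)) _
    have h2 : (X : F[X]) ^ ((n + 1) * q) = X ^ q * X ^ (n * q) := by
      rw [← pow_add]; congr 1; ring
    rw [h2] at h1
    exact (mul_dvd_mul_iff_right (pow_ne_zero _ X_ne_zero)).1 h1
  have hfq : (X : F[X]) ^ q ∣ f ^ q - C (f.coeff 0) := by
    have h1 : f ^ q = expand F q f := (FiniteField.expand_card f).symm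
    have h2 : (X : F[X]) ∣ f - C (f.coeff 0) := by
      rw [X_dvd_iff]; simp
    obtain ⟨g, hg⟩ := h2
    have h3 : expand F q (f - C (f.coeff 0)) = expand F q (X * g) := by rw [hg]
    rw [map_sub, expand_C, map_mul, expand_X, ← h1] at h3
    exact ⟨_, h3⟩
  have hY : (X : F[X]) ^ q ∣ f * (f ^ N) ^ l - C (f.coeff 0) := by
    have h1 : f * (f ^ N) ^ l = f ^ q := by
      rw [← pow_mul, ← pow_succ', ← hN, mul_comm l N]
    rw [h1]
    exact hfq
  exact hn2 (nonv32 hl f hf hnp (f.coeff 0) hf0 q m hm (f ^ N) hY (r ⟨n, hn⟩) (hr _) hdiv)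

/-- linear algebra: a nontrivial solution of the conditions -/
theorem exists_sol32 (f : F[X]) (N L J l m : ℕ) (a : F) (hm : 0 < m)
    (h1 : L * (m + L * f.natDegree + J) < J * (l * m)) :
    ∃ r : Fin J → Fin l → F[X], (∀ j t, (r j t).degree < m) ∧
      (∀ i < L, EL32 f N L J l a r i = 0) ∧ ∃ j, r j ≠ 0 := by
  let V := Fin J → Fin l → degreeLT F m
  let B := m + L * f.natDegree + J
  let φ : Fin L → V →ₗ[F] F[X] := fun i => ∑ j : Fin J, ∑ t : Fin l,
    (LinearMap.mulRight F (X ^ (j : ℕ) : F[X])) ∘ₗ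
      ((LinearMap.mulLeft F (C (a ^ (t : ℕ)))) ∘ₗ op f ((L : F) + ((t : ℕ) * N : ℕ)) i ∘ₗ
        (degreeLT F m).subtype ∘ₗ LinearMap.proj t ∘ₗ LinearMap.proj j)
  have hφ : ∀ (i : Fin L) (x : V), φ i x = EL32 f N L J l a (fun j t => (x j t : F[X])) i := by
    intro i x
    simp only [φ, EL32, LinearMap.sum_apply]
    rfl
  have hdeg : ∀ (i : Fin L) (x : V), φ i x ∈ degreeLT F B := by
    intro i x
    rw [hφ, EL32]
    refine Submodule.sum_mem _ fun j _ => Submodule.sum_mem _ fun t _ => ?_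
    rw [mem_degreeLT]
    have h2 : (C (a ^ (t : ℕ)) * (op f ((L : F) + ((t : ℕ) * N : ℕ)) i) (x j t : F[X]) *
        X ^ (j : ℕ)).natDegree ≤ (m - 1 + i * f.natDegree) + j := by
      refine natDegree_mul_le.trans ?_
      rw [natDegree_X_pow]
      refine Nat.add_le_add_right ?_ _
      have hx1 : (x j t : F[X]).natDegree ≤ m - 1 := by
        have := natDeg_lt hm (mem_degreeLT.1 (x j t).2); omega
      refine natDegree_mul_le.trans ?_
      rw [natDegree_C, zero_add]
      exact op_natDegree f _ _ _ hx1 _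
    have h3 : (i : ℕ) * f.natDegree ≤ L * f.natDegree := Nat.mul_le_mul_right _ i.2.le
    have h4 := j.2
    refine lt_of_le_of_lt degree_le_natDegree (WithBot.coe_lt_coe.2 (lt_of_le_of_lt h2 ?_))
    change m - 1 + (i : ℕ) * f.natDegree + j < m + L * f.natDegree + J
    omega
  let Φ : V →ₗ[F] (Fin L → degreeLT F B) :=
    LinearMap.pi fun i => (φ i).codRestrict (degreeLT F B) (hdeg i)
  have hfd : ∀ n : ℕ, Module.finrank F (degreeLT F n) = n := fun n => by
    rw [LinearEquiv.finrank_eq (degreeLTEquiv F n), Module.finrank_fin_fun]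
  have hfinite : ∀ n : ℕ, Module.Finite F (degreeLT F n) := fun n =>
    Module.Finite.equiv (degreeLTEquiv F n).symm
  have := hfinite m
  have := hfinite B
  have hker : LinearMap.ker Φ ≠ ⊥ := by
    refine LinearMap.ker_ne_bot_of_finrank_lt ?_
    rw [Module.finrank_pi_fintype, Module.finrank_pi_fintype]
    simp only [Module.finrank_pi_fintype, hfd, Finset.sum_const, Finset.card_univ,
      Fintype.card_fin, smul_eq_mul]
    exact h1
  obtain ⟨x, hx, hx0⟩ := Submodule.exists_mem_ne_zero_of_ne_bot hker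
  refine ⟨fun j t => (x j t : F[X]), fun j t => mem_degreeLT.1 (x j t).2, fun i hi => ?_, ?_⟩
  · rw [← hφ ⟨i, hi⟩ x]
    have h2 := congrFun (LinearMap.mem_ker.1 hx) ⟨i, hi⟩
    have h3 := congrArg Subtype.val h2
    exact h3
  · by_contra hne
    push Not at hne
    apply hx0
    exact funext fun j => funext fun t => Subtype.ext (congrFun (hne j) t)

open scoped Classical in
/-- the upper bound -/
theorem count_le32 [Fintype F] {l : ℕ} (hl : l.Prime) (f : F[X]) (hf : f ≠ 0) (hnp : NP32 l f)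
    (hf0 : f.coeff 0 ≠ 0) (N L J m : ℕ) (hN : l * N + 1 = Fintype.card F) (a : F)
    (hm0 : 0 < m) (hm : l * (m + f.natDegree) < Fintype.card F) (hJ : 0 < J) (hL : 0 < L)
    (h1 : L * (m + L * f.natDegree + J) < J * (l * m)) (hfac : ((L - 1).factorial : F) ≠ 0) :
    L * (Finset.univ.filter fun x : F => f.eval x ^ N = a).card ≤
      L * f.natDegree + (m + (l - 1) * N * f.natDegree) + (J - 1) * Fintype.card F := by
  set q := Fintype.card F with hq
  obtain ⟨r, hr, hE, hne⟩ := exists_sol32 f N L J l m a hm0 h1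
  have hq0 : (q : F) = 0 := by rw [hq]; exact FiniteField.cast_card_eq_zero F
  set T := TL32 f N q L J l r 0 with hT
  have hrm : ∀ j t, (r j t).natDegree ≤ m := fun j t => (natDeg_lt hm0 (hr j t)).le
  have hT0 : T ≠ 0 := by
    intro h0
    have h2 : ∑ j : Fin J, (∑ t : Fin l, r j t * (f ^ N) ^ (t : ℕ)) * X ^ ((j : ℕ) * q) = 0 := by
      have h3 : T = f ^ L * ∑ j : Fin J, (∑ t : Fin l, r j t * (f ^ N) ^ (t : ℕ)) *
          X ^ ((j : ℕ) * q) := by
        rw [hT, TL32, Nat.sub_zero, Finset.mul_sum]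
        refine Finset.sum_congr rfl fun j _ => ?_
        rw [Finset.sum_mul, Finset.mul_sum]
        refine Finset.sum_congr rfl fun t _ => ?_
        rw [op_zero, ← pow_mul, mul_comm N]
        ring
      rw [h3] at h0
      exact (mul_eq_zero.1 h0).resolve_left (pow_ne_zero _ hf)
    obtain ⟨j, hj⟩ := hne
    exact hj (nonvJ32 hl f hf hnp hf0 N m hN hm J r hrm h2 j)
  have hroot : ∀ x ∈ Finset.univ.filter (fun x : F => f.eval x ^ N = a),
      L ≤ T.roots.count x := by
    intro x hx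
    rw [Finset.mem_filter] at hx
    rw [count_roots]
    have h2 : L - 1 < T.rootMultiplicity x := by
      refine (lt_rootMultiplicity_iff_isRoot_iterate_derivative_of_mem_nonZeroDivisors hT0
        (mem_nonZeroDivisors_of_ne_zero hfac)).2 fun i hi => ?_
      rw [hT, iter_TL32 f N q L J l hq0 r i (by omega), IsRoot.def,
        eval_TL32 f N q L J l a r i x (FiniteField.pow_card x) hx.2, hE i (by omega), eval_zero,
        mul_zero]
    omega
  have hdegT : T.natDegree ≤ L * f.natDegree + (m + (l - 1) * N * f.natDegree) + (J - 1) * q := by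
    rw [hT, TL32, Nat.sub_zero]
    refine natDegree_sum_le_of_forall_le _ _ fun j _ => natDegree_sum_le_of_forall_le _ _ fun t _ => ?_
    refine natDegree_mul_le.trans ?_
    rw [natDegree_X_pow]
    have h4 : (j : ℕ) * q ≤ (J - 1) * q := Nat.mul_le_mul_right _ (by have := j.2; omega)
    refine Nat.add_le_add ?_ h4
    refine natDegree_mul_le.trans (Nat.add_le_add natDegree_pow_le ?_)
    refine natDegree_mul_le.trans (Nat.add_le_add (hrm j t) ?_)
    refine natDegree_pow_le.trans ?_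
    have h5 : (t : ℕ) ≤ l - 1 := by
      have := t.2
      omega
    exact Nat.mul_le_mul_right _ (Nat.mul_le_mul_right _ h5)
  calc L * (Finset.univ.filter fun x : F => f.eval x ^ N = a).card
      = ∑ x ∈ Finset.univ.filter (fun x : F => f.eval x ^ N = a), L := by
        rw [Finset.sum_const, smul_eq_mul, mul_comm]
    _ ≤ ∑ x ∈ Finset.univ.filter (fun x : F => f.eval x ^ N = a), T.roots.count x :=
        Finset.sum_le_sum hroot
    _ ≤ ∑ x : F, T.roots.count x :=
        Finset.sum_le_sum_of_subset (Finset.filter_subset _ _)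
    _ = T.roots.card := by
        rw [← Multiset.sum_count_eq_card (s := Finset.univ) (m := T.roots)
          (fun a _ => Finset.mem_univ a)]
    _ ≤ T.natDegree := T.card_roots'
    _ ≤ _ := hdegT

end

end Pool.Agent.MLF
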